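import Pool.Agent.Run7.h987.SE.All

/-!
# The width of the free pmp actions of a nonamenable group is the continuum (MP_651bcb_an, Q1)

For every countable nonamenable group `Γ` and every standard Borel atomless probability space
`(X, μ)` there is an antichain of `𝔠` free pmp actions of `Γ` on `(X, μ)` for weak containment, and
`width Γ X μ = 𝔠`.

The antichain: `a_t = t·s ⊕ (1-t)·s` (`0 < t < 1/2`), `s` the Bernoulli shift over `{0,1}`.  As
`Γ` is nonamenable, `s` is strongly ergodic, so the masses of almost invariant sets of `a_t`
accumulate exactly at `0, t, 1-t, 1`; this set of accumulation points grows along weak containment.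

Definitions (file `Pool/Agent/Run7/h987/SE/Iface.lean`, `Fin.lean`): `Amenable` (invariant finitely
additive probability on all subsets), `PMPAction`, `IsFree`, `WeaklyContained b a` (`b ≼ a`),
`IsFreeAntichain`, `width` (supremum of the cardinalities of antichains of free actions).
-/

set_option autoImplicit false

open MeasureTheory Cardinal
open Pool.Agent.Run7.h987.SE

namespace Pool.Agent.Results.MP_651bcb_an.WidthOfFree

theorem result (Γ : Type) [Group Γ] [Countable Γ] (hΓ : ¬ Amenable Γ) (X : Type)
    [MeasurableSpace X] [StandardBorelSpace X] (μ : Measure X) [IsProbabilityMeasure μ]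
    (hμ : ∀ x, μ {x} = 0) :
    width Γ X μ = 𝔠 ∧ ∃ S : Set (PMPAction Γ X μ), IsFreeAntichain S ∧ #S = 𝔠 :=
  width_eq t_ACT Run7.h417.SE.t_WC Run7.h313.SE.Card.t_CARD Γ hΓ X μ hμ

end Pool.Agent.Results.MP_651bcb_an.WidthOfFree
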